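import Pool.Agent.N522.BSV.Sheaves

/-!
# Beilinson–Soulé vanishing and one algebraically closed field in degree zero
-/

open Pool.Agent.N522.BSV Cardinal

/-- Let `Ω` be an uncountable algebraically closed field of characteristic `p ≥ 0`, e.g. `ℂ`. For
every `m ≥ 1`, the part `n - i = m` of Q1 for all fields of characteristic `p` is equivalent to
`H^0(Ω, ℤ(m)) = 0`. In particular Q1 for all fields of characteristic `p` is equivalent to
`H^0(Ω, ℤ(m)) = 0` for all `m ≥ 1`. -/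
theorem Pool.Agent.Results.MP_e2821c_ag.OneFieldOneDegree.result
    (T : SheafTheory) (hT : SheafFacts T) (p : ℕ) (Ω : Type) [Field Ω] [IsAlgClosed Ω] [CharP Ω p]
    (hΩ : ℵ₀ < #Ω) :
    (∀ m : ℕ, 1 ≤ m → (Q1Diagonal T p m ↔ IntVanishes T Ω m 0)) ∧
    (Q1Char T p ↔ ∀ m : ℕ, 1 ≤ m → IntVanishes T Ω m 0) := by
  refine ⟨fun m hm => ⟨of_diagonal hT Ω p m hm, diagonal_of hT Ω p hΩ m hm⟩, fun h m hm => ?_, ?_⟩
  · exact of_diagonal hT Ω p m hm fun k _ _ n i hn hi _ => h k n i hn hi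
  · intro h k _ _ n i hn hi
    exact diagonal_of hT Ω p hΩ (n + (-i).toNat) (by omega) (h _ (by omega)) k n i hn hi (by omega)
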